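import Pool.Agent.LE.StmtsQH

/-!
# Squad LQF, row INW: the initial form bound
-/

set_option autoImplicit false

open MeasureTheory ProbabilityTheory

open scoped ENNReal BigOperators NNReal Matrix

noncomputable section

namespace Pool.Agent.LE.QF.H34

open Pool.Agent.Anderson hiding box mem_box card_box
open Pool.Agent.Loc Pool.Agent.Mob Pool.Agent.Helper54.Bal
  Pool.Agent.Helper96.EXP Pool.Agent.BED
open Pool.Agent.LE.MN Pool.Agent.LE.CL Pool.Agent.LE.IR Pool.Agent.LE.QD

variable {d M : ℕ} [NeZero M]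

omit [NeZero M] in
theorem ds_neg (p : Tor d M) : ds (-p) = ds p := by
  unfold ds
  refine Finset.sum_congr rfl fun i _ => ?_
  have h1 : |(((-p) i).valMinAbs : ℝ)| = |((p i).valMinAbs : ℝ)| := by
    have h := ZMod.natAbs_valMinAbs_neg (p i)
    have h2 : ((((-p) i).valMinAbs.natAbs : ℕ) : ℤ) = (((p i).valMinAbs.natAbs : ℕ) : ℤ) := by
      exact_mod_cast h
    rw [Int.natCast_natAbs, Int.natCast_natAbs] at h2
    exact_mod_cast h2
  have h2 : ∀ v : ℝ, Real.cos (2 * Real.pi * v / M) = Real.cos (2 * Real.pi * |v| / M) := by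
    intro v
    rcases abs_choice v with h | h
    · rw [h]
    · rw [h, ← Real.cos_neg]
      congr 1
      ring
  rw [h2, h2 ((p i).valMinAbs : ℝ), h1]

theorem low_neg (J : ℕ) (p : Tor d M) : -p ∈ low d M J ↔ p ∈ low d M J := by
  unfold low
  simp only [Finset.mem_filter, Finset.mem_univ, true_and, Pi.neg_apply,
    ZMod.natAbs_valMinAbs_neg]

theorem ds_pos (p : Tor d M) (hp : p ≠ 0) : 0 < ds p := by
  have hM : (0 : ℝ) < M := by exact_mod_cast Nat.pos_of_ne_zero (NeZero.ne M)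
  obtain ⟨i, hi⟩ := Function.ne_iff.1 hp
  unfold ds
  refine Finset.sum_pos' (fun i _ => ?_) ⟨i, Finset.mem_univ i, ?_⟩
  · have := Real.cos_le_one (2 * Real.pi * ((p i).valMinAbs : ℝ) / M)
    linarith
  · have hv : (p i).valMinAbs ≠ 0 := by
      rw [Ne, ZMod.valMinAbs_eq_zero]
      exact hi
    have hv2 : ((p i).valMinAbs.natAbs : ℝ) ≤ M / 2 := by
      have h := ZMod.natAbs_valMinAbs_le (p i)
      have h3 : 2 * (p i).valMinAbs.natAbs ≤ M := by omega
      have h4 : (2 : ℝ) * ((p i).valMinAbs.natAbs : ℝ) ≤ M := by exact_mod_cast h3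
      linarith
    have hv3 : |((p i).valMinAbs : ℝ)| ≤ M / 2 := by
      have h : (((p i).valMinAbs.natAbs : ℕ) : ℝ) = |((p i).valMinAbs : ℝ)| := by
        rw [← Int.cast_abs, Int.abs_eq_natAbs, Int.cast_natCast]
      rw [← h]
      exact hv2
    have hne : ((p i).valMinAbs : ℝ) ≠ 0 := by exact_mod_cast hv
    have hx : 2 * Real.pi * ((p i).valMinAbs : ℝ) / M ≠ 0 :=
      div_ne_zero (mul_ne_zero (by positivity) hne) hM.ne'
    have hb : |2 * Real.pi * ((p i).valMinAbs : ℝ) / M| ≤ Real.pi := by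
      rw [abs_div, abs_mul, abs_of_pos (by positivity : (0 : ℝ) < 2 * Real.pi), abs_of_pos hM,
        div_le_iff₀ hM]
      nlinarith [Real.pi_pos]
    obtain ⟨hb1, hb2⟩ := abs_le.1 hb
    have hc : Real.cos (2 * Real.pi * ((p i).valMinAbs : ℝ) / M) ≠ 1 := by
      intro h
      have h5 := (Real.cos_eq_one_iff_of_lt_of_lt (by linarith [Real.pi_pos])
        (by linarith [Real.pi_pos])).1 h
      exact hx h5
    have hle := Real.cos_le_one (2 * Real.pi * ((p i).valMinAbs : ℝ) / M)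
    have hlt := lt_of_le_of_ne hle hc
    linarith

/-- the row INW -/
theorem inw (kft : KftStmt) (fmu : FmuStmt) : InwStmt := by
  intro d M _ ζ J cs e₀ e₁ β c τ hζ hτ hkf hc hcs hβ h1 he0 he12 he1 hnl hnl' hl f
  obtain ⟨-, -, -, hK, hev, -⟩ := kft d M ζ hζ
  have hMpos : (0 : ℝ) < (M : ℝ) ^ d := by
    have hM : (0 : ℝ) < M := by exact_mod_cast Nat.pos_of_ne_zero (NeZero.ne M)
    positivity
  have hsy : ∀ p : Tor d M, sy0 cs ζ.im J (-p) = sy0 cs ζ.im J p := by
    intro p
    unfold sy0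
    by_cases h : p ∈ low d M J ∧ p ≠ 0
    · rw [if_pos h, if_pos ⟨(low_neg J p).2 h.1, neg_ne_zero.2 h.2⟩, ds_neg]
    · rw [if_neg h, if_neg]
      rintro ⟨h3, h4⟩
      exact h ⟨(low_neg J p).1 h3, neg_ne_zero.1 h4⟩
  have hsy0 : ∀ p : Tor d M, 0 ≤ sy0 cs ζ.im J p := by
    intro p
    unfold sy0
    split_ifs with h
    · have := ds_pos p h.2
      positivity
    · exact le_rfl
  -- the symbols
  set a : Tor d M → ℝ := fun p => e₀ + τ * sy0 cs ζ.im J p with ha
  set b : Tor d M → ℝ := fun p => (1 + (-τ) * kf ζ p) + (if p = 0 then 1 else 0) with hb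
  have ha0 : ∀ p, 0 < a p := fun p => by
    have := mul_nonneg hτ.le (hsy0 p)
    simp only [ha]
    linarith
  have hae : ∀ p, a (-p) = a p := fun p => by simp only [ha, hsy]
  have he : ∀ p : Tor d M, ((if -p = 0 then 1 else 0 : ℝ)) = if p = 0 then 1 else 0 := by
    intro p
    by_cases h : p = 0
    · subst h; simp
    · rw [if_neg h, if_neg (neg_ne_zero.2 h)]
  have hbe : ∀ p, b (-p) = b p := fun p => by simp only [hb, hev, he]
  have hA : e₀ • (1 : Matrix (Tor d M) (Tor d M) ℝ) + τ • mlt (sy0 cs ζ.im J) = mlt a := by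
    obtain ⟨-, -, -, -, hsm, hone, -⟩ := fmu d M (fun _ => (1 : ℝ)) (fun _ => (1 : ℝ))
      (fun _ => rfl) (fun _ => rfl)
    obtain ⟨-, -, -, -, hsm', -⟩ := fmu d M (sy0 cs ζ.im J) (fun _ => (1 : ℝ)) hsy (fun _ => rfl)
    obtain ⟨-, -, -, hadd, -⟩ := fmu d M (fun _ => e₀ * 1) (fun p => τ * sy0 cs ζ.im J p)
      (fun _ => rfl) (fun p => by rw [hsy])
    rw [← hone, ← hsm, ← hsm', ← hadd]
    congr 1
    funext p
    simp only [ha, mul_one]
  have hAi : (mlt a)⁻¹ = mlt fun p => (a p)⁻¹ := by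
    obtain ⟨-, -, -, -, -, -, -, -, -, hinv, -⟩ := fmu d M a a hae hae
    exact hinv ha0
  have hB : τ • Dl (KK (rs (0 : Tor d M → ℝ) ζ)) + P0 (Tor d M) = mlt b := by
    obtain ⟨-, -, -, -, hsm, -, hrow, -, hP, -⟩ := fmu d M (kf ζ) (kf ζ) hev hev
    obtain ⟨-, -, -, hadd, -, hone, -⟩ := fmu d M (fun _ => (1 : ℝ)) (fun p => (-τ) * kf ζ p)
      (fun _ => rfl) (fun p => by rw [hev])
    obtain ⟨-, -, -, hadd', -⟩ := fmu d M (fun p => 1 + (-τ) * kf ζ p)
      (fun p => if p = 0 then 1 else 0) (fun p => by rw [hev]) he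
    have h3 : mlt b = 1 + (-τ) • mlt (kf ζ) + P0 (Tor d M) := by
      rw [hP, ← hsm, ← hone, ← hadd, ← hadd']
    rw [h3, hK]
    congr 1
    unfold Dl
    have h4 : Matrix.diagonal (fun x : Tor d M => ∑ y, mlt (kf ζ) x y) =
        (kf ζ (0 : Tor d M)) • (1 : Matrix (Tor d M) (Tor d M) ℝ) := by
      ext x y
      simp only [Matrix.diagonal_apply, Matrix.smul_apply, Matrix.one_apply, smul_eq_mul, hrow,
        mul_ite, mul_one, mul_zero]
    rw [h4, smul_sub, smul_smul, hkf, one_smul, neg_smul, sub_eq_add_neg]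
  obtain ⟨hqa, -⟩ := fmu d M (fun p => (a p)⁻¹) (fun p => (a p)⁻¹) (fun p => by rw [hae])
    (fun p => by rw [hae])
  obtain ⟨hqb, -⟩ := fmu d M b b hbe hbe
  rw [hA, hAi, hB, hqa, hqb]
  unfold pm
  rw [← mul_div_assoc]
  refine div_le_div_of_nonneg_right ?_ hMpos.le
  rw [Finset.mul_sum]
  refine Finset.sum_le_sum fun p _ => ?_
  rw [← mul_assoc]
  refine mul_le_mul_of_nonneg_right ?_ (sq_nonneg _)
  -- the inequality of the symbols
  rw [← div_eq_mul_inv, div_le_iff₀ (ha0 p)]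
  have hle : e₁ ≤ e₀ := h1.trans (by nlinarith)
  by_cases hp : p = 0
  · subst hp
    have ha' : a 0 = e₀ := by
      simp only [ha, sy0, ne_eq, not_true_eq_false, and_false, if_false, mul_zero, add_zero]
    have hb' : b 0 = 1 := by
      simp only [hb, if_true]
      linarith
    rw [ha', hb', one_mul]
    exact hle
  have hbp : b p = 1 - τ * kf ζ p := by
    simp only [hb, if_neg hp]
    ring
  by_cases hlow : p ∈ low d M J
  · have hd := ds_pos p hp
    have hap : a p = e₀ + τ * (cs * (1 / ζ.im + ζ.im / ds p)) := by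
      simp only [ha, sy0]
      rw [if_pos ⟨hlow, hp⟩]
    set mm : ℝ := min 1 (ds p / ζ.im ^ 2) with hmm
    have hmm0 : 0 < mm := lt_min one_pos (by positivity)
    have hb1 : c * mm ≤ b p := by
      have h5 := mul_le_mul_of_nonneg_left (hl p hlow) hτ.le
      have h6 : τ * ((1 - c * mm) * kf ζ (0 : Tor d M)) = 1 - c * mm := by
        calc τ * ((1 - c * mm) * kf ζ (0 : Tor d M))
            = (1 - c * mm) * (τ * kf ζ (0 : Tor d M)) := by ring
          _ = 1 - c * mm := by rw [hkf, mul_one]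
      rw [h6] at h5
      rw [hbp]
      linarith
    have hkey : 1 / ζ.im ≤ (1 / ζ.im + ζ.im / ds p) * mm := by
      rcases le_total 1 (ds p / ζ.im ^ 2) with h | h
      · rw [hmm, min_eq_left h, mul_one]
        have : 0 ≤ ζ.im / ds p := by positivity
        linarith
      · rw [hmm, min_eq_right h]
        have h7 : (1 / ζ.im + ζ.im / ds p) * (ds p / ζ.im ^ 2) =
            ds p / ζ.im ^ 3 + 1 / ζ.im := by
          field_simp
        rw [h7]
        have : 0 ≤ ds p / ζ.im ^ 3 := by positivity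
        linarith
    have h8 : 2 ≤ τ * (cs * (1 / ζ.im)) * c := by
      have h9 : τ * (cs * (1 / ζ.im)) * c = c * cs * τ / ζ.im := by ring
      rw [h9, le_div_iff₀ hζ]
      exact hnl
    calc e₁ ≤ 2 := he12
      _ ≤ τ * (cs * (1 / ζ.im)) * c := h8
      _ ≤ τ * (cs * ((1 / ζ.im + ζ.im / ds p) * mm)) * c := by gcongr
      _ = (c * mm) * (τ * (cs * (1 / ζ.im + ζ.im / ds p))) := by ring
      _ ≤ b p * (τ * (cs * (1 / ζ.im + ζ.im / ds p))) := by
          refine mul_le_mul_of_nonneg_right hb1 ?_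
          positivity
      _ ≤ b p * a p := by
          refine mul_le_mul_of_nonneg_left ?_ ((mul_pos hc hmm0).le.trans hb1)
          rw [hap]
          linarith
  · have hap : a p = e₀ := by
      simp only [ha, sy0]
      rw [if_neg (fun h => hlow h.1), mul_zero, add_zero]
    have h5 : kf ζ p ≤ β * kf ζ (0 : Tor d M) := (le_abs_self _).trans (hnl' p hlow)
    have h6 := mul_le_mul_of_nonneg_left h5 hτ.le
    have h7 : τ * (β * kf ζ (0 : Tor d M)) = β := by
      calc τ * (β * kf ζ (0 : Tor d M)) = β * (τ * kf ζ (0 : Tor d M)) := by ring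
        _ = β := by rw [hkf, mul_one]
    rw [h7] at h6
    rw [hap, hbp]
    nlinarith

end Pool.Agent.LE.QF.H34
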